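import Pool.Agent.helper78.ED.Defs

/-! # Project ED, module PS: sum over the pairs -/

set_option autoImplicit false

open Complex MeasureTheory

namespace Pool.Agent.helper78.ED

open Pool.Agent.helper84.DM

theorem PS_log {T : ℝ} (hT : 4 ≤ T) : Real.log T + 2 ≤ T := by
  have h0 : (0 : ℝ) ≤ T := by linarith
  have h1 : Real.log T = 2 * Real.log (Real.sqrt T) := by
    rw [Real.log_sqrt h0]; ring
  have hs : 2 ≤ Real.sqrt T := by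
    rw [show (2 : ℝ) = Real.sqrt 4 by
      rw [show (4 : ℝ) = 2 ^ 2 by norm_num, Real.sqrt_sq (by norm_num)]]
    exact Real.sqrt_le_sqrt hT
  have h2 := Real.log_le_sub_one_of_pos (show 0 < Real.sqrt T by linarith)
  have h3 : Real.sqrt T * Real.sqrt T = T := Real.mul_self_sqrt h0
  nlinarith

open Classical in
/-- The number of points near a given height. -/
theorem PS_near {T L C : ℝ} (hL : 1 ≤ L) (hT : L + 2 ≤ T) (Z : Finset ℂ)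
    (hC : 0 ≤ C) (hloc : ∀ t : ℝ, 1 ≤ t → t ≤ 3 * T → (loc Z t : ℝ) ≤ C * L) (y : ℝ)
    (hy1 : T ≤ y) (hy2 : y ≤ 2 * T) :
    ((Z.filter (fun z => |y - z.im| < L)).card : ℝ) ≤ 4 * C * L ^ 2 := by
  set K : ℕ := ⌈L⌉₊ with hK
  have hK1 : L ≤ K := Nat.le_ceil L
  have hK2 : (K : ℝ) < L + 1 := Nat.ceil_lt_add_one (by linarith)
  set W := Z.filter (fun z => |y - z.im| < L) with hW
  set g : ℂ → ℕ := fun z => ⌊z.im - y + K⌋₊ with hg
  have hW1 : ∀ z ∈ W, -L < z.im - y ∧ z.im - y < L := by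
    intro z hz
    rw [hW, Finset.mem_filter] at hz
    have h := abs_lt.mp hz.2
    constructor <;> linarith [h.1, h.2]
  have hmaps : ∀ z ∈ W, g z ∈ Finset.range (2 * K) := by
    intro z hz
    obtain ⟨a, b⟩ := hW1 z hz
    rw [Finset.mem_range]
    apply (Nat.floor_lt (by linarith)).mpr
    push_cast
    linarith
  have hfib : ∀ k ∈ Finset.range (2 * K), ((W.filter (fun z => g z = k)).card : ℝ) ≤ C * L := by
    intro k hk
    rw [Finset.mem_range] at hk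
    have hk' : (k : ℝ) < 2 * K := by exact_mod_cast hk
    have h1 : ((W.filter (fun z => g z = k)).card : ℝ) ≤ (loc Z (y - K + k) : ℝ) := by
      have : (W.filter (fun z => g z = k)).card ≤ loc Z (y - K + k) := by
        unfold loc
        apply Finset.card_le_card
        intro z hz
        rw [Finset.mem_filter] at hz ⊢
        obtain ⟨hzW, hgz⟩ := hz
        obtain ⟨a, b⟩ := hW1 z hzW
        rw [hW, Finset.mem_filter] at hzW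
        refine ⟨hzW.1, ?_, ?_⟩
        · have : (k : ℝ) ≤ z.im - y + K := by
            rw [← hgz]
            exact Nat.floor_le (by linarith)
          linarith
        · have : z.im - y + K < (k : ℝ) + 1 := by
            rw [← hgz]
            exact Nat.lt_floor_add_one _
          linarith
      exact_mod_cast this
    refine le_trans h1 (hloc _ ?_ ?_)
    · have : (0 : ℝ) ≤ k := Nat.cast_nonneg k
      linarith
    · linarith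
  have hsum : W.card = ∑ k ∈ Finset.range (2 * K), (W.filter (fun z => g z = k)).card :=
    Finset.card_eq_sum_card_fiberwise hmaps
  calc (W.card : ℝ) = ∑ k ∈ Finset.range (2 * K), ((W.filter (fun z => g z = k)).card : ℝ) := by
        rw [hsum]; push_cast; rfl
    _ ≤ ∑ k ∈ Finset.range (2 * K), C * L := Finset.sum_le_sum hfib
    _ = 2 * K * (C * L) := by
        rw [Finset.sum_const, Finset.card_range, nsmul_eq_mul]; push_cast; ring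
    _ ≤ (4 * L) * (C * L) := by
        apply mul_le_mul_of_nonneg_right _ (by positivity)
        linarith
    _ = 4 * C * L ^ 2 := by ring

/-- Two applications of the Cauchy-Schwarz inequality. -/
theorem PS_holder (r A : ℕ → ℝ) (hr : ∀ j, 0 ≤ r j) (J : ℕ) :
    (∑ j ∈ Finset.range J, r j * A j) ^ 4 ≤
      (∑ j ∈ Finset.range J, r j) ^ 2 * ((∑ j ∈ Finset.range J, r j ^ 2) *
        ∑ j ∈ Finset.range J, A j ^ 4) := by
  have h1 : (∑ j ∈ Finset.range J, r j * A j) ^ 2 ≤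
      (∑ j ∈ Finset.range J, r j) * ∑ j ∈ Finset.range J, r j * A j ^ 2 := by
    apply Finset.sum_sq_le_sum_mul_sum_of_sq_le_mul
    · intro i _; exact hr i
    · intro i _; exact mul_nonneg (hr i) (sq_nonneg _)
    · intro i _; exact le_of_eq (by ring)
  have h2 : (∑ j ∈ Finset.range J, r j * A j ^ 2) ^ 2 ≤
      (∑ j ∈ Finset.range J, r j ^ 2) * ∑ j ∈ Finset.range J, A j ^ 4 := by
    apply Finset.sum_sq_le_sum_mul_sum_of_sq_le_mul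
    · intro i _; exact sq_nonneg _
    · intro i _; positivity
    · intro i _; exact le_of_eq (by ring)
  have h3 : (0 : ℝ) ≤ ∑ j ∈ Finset.range J, r j := Finset.sum_nonneg (fun i _ => hr i)
  have h4 : (0 : ℝ) ≤ ∑ j ∈ Finset.range J, r j * A j ^ 2 :=
    Finset.sum_nonneg (fun i _ => mul_nonneg (hr i) (sq_nonneg _))
  calc (∑ j ∈ Finset.range J, r j * A j) ^ 4
      = ((∑ j ∈ Finset.range J, r j * A j) ^ 2) ^ 2 := by ring
    _ ≤ ((∑ j ∈ Finset.range J, r j) * ∑ j ∈ Finset.range J, r j * A j ^ 2) ^ 2 :=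
        pow_le_pow_left₀ (sq_nonneg _) h1 2
    _ = (∑ j ∈ Finset.range J, r j) ^ 2 * (∑ j ∈ Finset.range J, r j * A j ^ 2) ^ 2 := by ring
    _ ≤ _ := mul_le_mul_of_nonneg_left h2 (sq_nonneg _)

theorem pair_sum_of
    (hlc : ∃ C : ℝ, 0 < C ∧ ∀ T : ℝ, 2 ≤ T → ∀ Z : Finset ℂ,
      (∀ ρ ∈ Z, riemannZeta ρ = 0 ∧ 1 / 2 ≤ ρ.re) → ∀ t : ℝ, 1 ≤ t → t ≤ 3 * T →
        (loc Z t : ℝ) ≤ C * Real.log T)
    (htriv : ∃ C : ℝ, 0 < C ∧ ∀ M z τ : ℝ, 1 ≤ M → 0 ≤ z → ‖SS M z τ‖ ≤ C * M)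
    (hzeta : ∀ η : ℝ, 0 < η → η ≤ 1 / 8 → ∃ C T₀ : ℝ, 0 < C ∧ ∀ T : ℝ, T₀ ≤ T →
      ∀ M z τ : ℝ, 1 ≤ M → M ≤ T ^ (6 : ℕ) → 0 ≤ z → z ≤ 1 → Real.log T ≤ |τ| → |τ| ≤ T →
        ‖SS M z τ‖ ≤ C * M ^ (1 / 2 + η) * (1 + Zt η (|τ| / 2) |τ|))
    (hmom : ∀ η ε : ℝ, 0 < η → η ≤ 1 / 8 → 0 < ε → ∃ C T₀ : ℝ, 0 < C ∧
      ∀ T : ℝ, T₀ ≤ T → ∃ A : ℕ → ℝ, (∀ j, 0 ≤ A j) ∧
        (∀ τ : ℝ, Real.log T ≤ τ → τ ≤ T → 1 + Zt η (τ / 2) τ ≤ A ⌊τ⌋₊) ∧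
        ∑ j ∈ Finset.range (⌊T⌋₊ + 1), A j ^ 4 ≤ C * T ^ (1 + ε))
    (hrsq : ∀ (Z : Finset ℂ) (J : ℕ),
      ∑ j ∈ Finset.range J, (rr Z j : ℝ) ^ 2 ≤ 4 * (energy Z : ℝ))
    (hrsum : ∀ (Z : Finset ℂ) (J : ℕ),
      ∑ j ∈ Finset.range J, (rr Z j : ℝ) ≤ (Z.card : ℝ) ^ 2)
    (η ε : ℝ) (hη : 0 < η) (hη1 : η ≤ 1 / 8) (hε : 0 < ε) : ∃ C T₀ : ℝ, 0 < C ∧
    ∀ T : ℝ, T₀ ≤ T → ∀ σ M : ℝ, 1 / 2 ≤ σ → 1 ≤ M → M ≤ T ^ (6 : ℕ) →
      ∀ Z : Finset ℂ, Zer σ T Z →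
        ∑ ρ ∈ Z, ∑ ρ' ∈ Z, ‖SS M (ρ.re + ρ'.re - 2 * σ) (ρ.im - ρ'.im)‖
          ≤ C * T ^ ε * (Z.card : ℝ) *
            (M + M ^ (1 / 2 + η) * (T * (energy Z : ℝ)) ^ (1 / 4 : ℝ)) := by
  classical
  obtain ⟨C₁, hC₁, h1⟩ := hlc
  obtain ⟨C₂, hC₂, h2⟩ := htriv
  obtain ⟨C₃, T₃, hC₃, h3⟩ := hzeta η hη hη1
  obtain ⟨C₄, T₄, hC₄, h4⟩ := hmom η (4 * ε) hη hη1 (by positivity)
  refine ⟨16 * C₁ * C₂ / ε ^ 2 + C₃ * (4 * C₄) ^ (1 / 4 : ℝ), max (max T₃ T₄) 4,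
    by positivity, ?_⟩
  intro T hT σ M hσ hM hM6 Z hZ
  have hT3 : T₃ ≤ T := le_trans (le_trans (le_max_left _ _) (le_max_left _ _)) hT
  have hT4 : T₄ ≤ T := le_trans (le_trans (le_max_right _ _) (le_max_left _ _)) hT
  have hT5 : 4 ≤ T := le_trans (le_max_right _ _) hT
  have hT0 : 0 < T := by linarith
  have hL1 : 1 ≤ Real.log T := by
    rw [← Real.log_exp 1]
    apply Real.log_le_log (Real.exp_pos 1)
    have := Real.exp_one_lt_d9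
    linarith
  have hLT : Real.log T + 2 ≤ T := PS_log hT5
  have hMpos : 0 < M := by linarith
  obtain ⟨A, hA0, hA1, hA2⟩ := h4 T hT4
  -- the pairs
  have hz : ∀ ρ ∈ Z, ∀ ρ' ∈ Z, 0 ≤ ρ.re + ρ'.re - 2 * σ ∧ ρ.re + ρ'.re - 2 * σ ≤ 1 ∧
      |ρ.im - ρ'.im| ≤ T := by
    intro ρ hρ ρ' hρ'
    obtain ⟨a, b, c, e⟩ := hZ ρ hρ
    obtain ⟨a', b', c', e'⟩ := hZ ρ' hρ'
    have h5 : ρ.re < 1 := by
      by_contra hcon
      push Not at hcon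
      exact riemannZeta_ne_zero_of_one_le_re hcon a
    have h6 : ρ'.re < 1 := by
      by_contra hcon
      push Not at hcon
      exact riemannZeta_ne_zero_of_one_le_re hcon a'
    refine ⟨by linarith, by linarith, ?_⟩
    rw [abs_le]
    constructor <;> linarith
  have hpt : ∀ ρ ∈ Z, ∀ ρ' ∈ Z, ‖SS M (ρ.re + ρ'.re - 2 * σ) (ρ.im - ρ'.im)‖ ≤
      (if |ρ.im - ρ'.im| < Real.log T then C₂ * M else 0) +
        C₃ * M ^ (1 / 2 + η) * A ⌊|ρ.im - ρ'.im|⌋₊ := by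
    intro ρ hρ ρ' hρ'
    obtain ⟨a, b, c⟩ := hz ρ hρ ρ' hρ'
    have hnn : 0 ≤ C₃ * M ^ (1 / 2 + η) * A ⌊|ρ.im - ρ'.im|⌋₊ :=
      mul_nonneg (by positivity) (hA0 _)
    by_cases hlt : |ρ.im - ρ'.im| < Real.log T
    · rw [if_pos hlt]
      have := h2 M (ρ.re + ρ'.re - 2 * σ) (ρ.im - ρ'.im) hM a
      linarith
    · rw [if_neg hlt, zero_add]
      push Not at hlt
      refine le_trans (h3 T hT3 M _ _ hM hM6 a b hlt c) ?_
      exact mul_le_mul_of_nonneg_left (hA1 _ hlt c) (by positivity)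
  have hnear : ∑ ρ ∈ Z, ∑ ρ' ∈ Z, (if |ρ.im - ρ'.im| < Real.log T then C₂ * M else 0) ≤
      (Z.card : ℝ) * (4 * C₁ * Real.log T ^ 2 * (C₂ * M)) := by
    rw [← nsmul_eq_mul]
    apply Finset.sum_le_card_nsmul
    intro ρ hρ
    rw [← Finset.sum_filter, Finset.sum_const, nsmul_eq_mul]
    apply mul_le_mul_of_nonneg_right _ (by positivity)
    obtain ⟨a, b, c, e⟩ := hZ ρ hρ
    apply PS_near hL1 hLT Z hC₁.le _ ρ.im c e
    intro t ht1 ht2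
    apply h1 T (by linarith) Z _ t ht1 ht2
    intro ρ' hρ'
    obtain ⟨a', b', c', e'⟩ := hZ ρ' hρ'
    exact ⟨a', by linarith⟩
  have hfar : ∑ ρ ∈ Z, ∑ ρ' ∈ Z, A ⌊|ρ.im - ρ'.im|⌋₊ =
      ∑ j ∈ Finset.range (⌊T⌋₊ + 1), (rr Z j : ℝ) * A j := by
    rw [← Finset.sum_product' Z Z (fun ρ ρ' => A ⌊|ρ.im - ρ'.im|⌋₊)]
    rw [← Finset.sum_fiberwise_of_maps_to (s := Z ×ˢ Z) (t := Finset.range (⌊T⌋₊ + 1))
      (g := fun q : ℂ × ℂ => ⌊|q.1.im - q.2.im|⌋₊)]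
    · apply Finset.sum_congr rfl
      intro j _
      rw [rr, ← nsmul_eq_mul, ← Finset.sum_const]
      apply Finset.sum_congr rfl
      intro q hq
      rw [Finset.mem_filter] at hq
      rw [hq.2]
    · intro q hq
      rw [Finset.mem_product] at hq
      obtain ⟨a, b, c⟩ := hz q.1 hq.1 q.2 hq.2
      rw [Finset.mem_range, Nat.lt_succ_iff]
      exact Nat.floor_le_floor c
  have hfar2 : ∑ j ∈ Finset.range (⌊T⌋₊ + 1), (rr Z j : ℝ) * A j ≤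
      (Z.card : ℝ) * ((4 * C₄) ^ (1 / 4 : ℝ) * T ^ ε * (T * (energy Z : ℝ)) ^ (1 / 4 : ℝ)) := by
    have hE0 : (0 : ℝ) ≤ (energy Z : ℝ) := Nat.cast_nonneg _
    refine le_of_pow_le_pow_left₀ (n := 4) (by norm_num) (by positivity) ?_
    refine le_trans (PS_holder (fun j => (rr Z j : ℝ)) A (fun j => Nat.cast_nonneg _) _) ?_
    have e1 : ((4 * C₄) ^ (1 / 4 : ℝ)) ^ 4 = 4 * C₄ := by
      rw [← Real.rpow_natCast, ← Real.rpow_mul (by positivity)]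
      norm_num
    have e2 : ((T * (energy Z : ℝ)) ^ (1 / 4 : ℝ)) ^ 4 = T * (energy Z : ℝ) := by
      rw [← Real.rpow_natCast, ← Real.rpow_mul (by positivity)]
      norm_num
    have e3 : T * (T ^ ε) ^ 4 = T ^ (1 + 4 * ε) := by
      rw [← Real.rpow_natCast, ← Real.rpow_mul hT0.le, Real.rpow_add hT0, Real.rpow_one]
      congr 2
      push_cast
      ring
    rw [mul_pow, mul_pow, mul_pow, e1, e2]
    have g1 : (∑ j ∈ Finset.range (⌊T⌋₊ + 1), (rr Z j : ℝ)) ^ 2 ≤ (Z.card : ℝ) ^ 4 := by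
      calc (∑ j ∈ Finset.range (⌊T⌋₊ + 1), (rr Z j : ℝ)) ^ 2
          ≤ ((Z.card : ℝ) ^ 2) ^ 2 :=
            pow_le_pow_left₀ (Finset.sum_nonneg (fun j _ => Nat.cast_nonneg _)) (hrsum Z _) 2
        _ = (Z.card : ℝ) ^ 4 := by ring
    have g2 : (∑ j ∈ Finset.range (⌊T⌋₊ + 1), (rr Z j : ℝ) ^ 2) *
        ∑ j ∈ Finset.range (⌊T⌋₊ + 1), A j ^ 4 ≤ (4 * (energy Z : ℝ)) * (C₄ * T ^ (1 + 4 * ε)) := by
      apply mul_le_mul (hrsq Z _) hA2 _ (by positivity)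
      exact Finset.sum_nonneg (fun j _ => by positivity)
    calc (∑ j ∈ Finset.range (⌊T⌋₊ + 1), (rr Z j : ℝ)) ^ 2 *
          ((∑ j ∈ Finset.range (⌊T⌋₊ + 1), (rr Z j : ℝ) ^ 2) *
            ∑ j ∈ Finset.range (⌊T⌋₊ + 1), A j ^ 4)
        ≤ (Z.card : ℝ) ^ 4 * ((4 * (energy Z : ℝ)) * (C₄ * T ^ (1 + 4 * ε))) := by
          apply mul_le_mul g1 g2 _ (by positivity)
          apply mul_nonneg <;> exact Finset.sum_nonneg (fun j _ => by positivity)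
      _ = (Z.card : ℝ) ^ 4 * (4 * C₄ * (T ^ ε) ^ 4 * (T * (energy Z : ℝ))) := by
          rw [← e3]; ring
  -- the logarithm
  have hlog2 : Real.log T ^ 2 ≤ 4 / ε ^ 2 * T ^ ε := by
    have h5 := Real.log_le_rpow_div hT0.le (show 0 < ε / 2 by positivity)
    have h6 : (T ^ (ε / 2)) ^ 2 = T ^ ε := by
      rw [← Real.rpow_natCast, ← Real.rpow_mul hT0.le]
      congr 1
      push_cast
      ring
    calc Real.log T ^ 2 ≤ (T ^ (ε / 2) / (ε / 2)) ^ 2 :=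
          pow_le_pow_left₀ (by linarith) h5 2
      _ = 4 / ε ^ 2 * T ^ ε := by rw [div_pow, h6]; field_simp; ring
  calc ∑ ρ ∈ Z, ∑ ρ' ∈ Z, ‖SS M (ρ.re + ρ'.re - 2 * σ) (ρ.im - ρ'.im)‖
      ≤ ∑ ρ ∈ Z, ∑ ρ' ∈ Z, ((if |ρ.im - ρ'.im| < Real.log T then C₂ * M else 0) +
        C₃ * M ^ (1 / 2 + η) * A ⌊|ρ.im - ρ'.im|⌋₊) :=
        Finset.sum_le_sum (fun ρ hρ => Finset.sum_le_sum (fun ρ' hρ' => hpt ρ hρ ρ' hρ'))
    _ = ∑ ρ ∈ Z, ∑ ρ' ∈ Z, (if |ρ.im - ρ'.im| < Real.log T then C₂ * M else 0) +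
        C₃ * M ^ (1 / 2 + η) * ∑ ρ ∈ Z, ∑ ρ' ∈ Z, A ⌊|ρ.im - ρ'.im|⌋₊ := by
        simp only [Finset.sum_add_distrib, Finset.mul_sum]
    _ ≤ (Z.card : ℝ) * (4 * C₁ * Real.log T ^ 2 * (C₂ * M)) +
        C₃ * M ^ (1 / 2 + η) * ((Z.card : ℝ) * ((4 * C₄) ^ (1 / 4 : ℝ) * T ^ ε *
          (T * (energy Z : ℝ)) ^ (1 / 4 : ℝ))) := by
        apply add_le_add hnear
        apply mul_le_mul_of_nonneg_left _ (by positivity)
        rw [hfar]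
        exact hfar2
    _ ≤ (Z.card : ℝ) * (4 * C₁ * (4 / ε ^ 2 * T ^ ε) * (C₂ * M)) +
        C₃ * M ^ (1 / 2 + η) * ((Z.card : ℝ) * ((4 * C₄) ^ (1 / 4 : ℝ) * T ^ ε *
          (T * (energy Z : ℝ)) ^ (1 / 4 : ℝ))) := by
        apply add_le_add _ le_rfl
        apply mul_le_mul_of_nonneg_left _ (Nat.cast_nonneg _)
        apply mul_le_mul_of_nonneg_right _ (by positivity)
        exact mul_le_mul_of_nonneg_left hlog2 (by positivity)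
    _ = T ^ ε * (Z.card : ℝ) * ((16 * C₁ * C₂ / ε ^ 2) * M +
          (C₃ * (4 * C₄) ^ (1 / 4 : ℝ)) * (M ^ (1 / 2 + η) *
            (T * (energy Z : ℝ)) ^ (1 / 4 : ℝ))) := by
        field_simp
        ring
    _ ≤ T ^ ε * (Z.card : ℝ) * ((16 * C₁ * C₂ / ε ^ 2 + C₃ * (4 * C₄) ^ (1 / 4 : ℝ)) *
          (M + M ^ (1 / 2 + η) * (T * (energy Z : ℝ)) ^ (1 / 4 : ℝ))) := by
        apply mul_le_mul_of_nonneg_left _ (by positivity)
        have q1 : 0 ≤ 16 * C₁ * C₂ / ε ^ 2 := by positivity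
        have q2 : 0 ≤ C₃ * (4 * C₄) ^ (1 / 4 : ℝ) := by positivity
        have q3 : 0 ≤ M ^ (1 / 2 + η) * (T * (energy Z : ℝ)) ^ (1 / 4 : ℝ) := by positivity
        nlinarith [mul_nonneg q1 q3, mul_nonneg q2 hMpos.le]
    _ = _ := by ring

end Pool.Agent.helper78.ED
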